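import Mathlib

set_option autoImplicit false

open Finset Polynomial Equiv

namespace Pool.Agent.R397.PP

/-- number of permutations with prescribed values -/
theorem card_perm_prescribed {α ι : Type*} [Fintype α] [DecidableEq α] (T : Finset ι) (a b : ι → α)
    (ha : Set.InjOn a T) (hb : Set.InjOn b T) :
    (univ.filter (fun σ : Perm α => ∀ c ∈ T, σ (a c) = b c)).card = (Fintype.card α - T.card).factorial := by
  classical
  -- an extension
  have hex : ∃ σ₀ : Perm α, ∀ c ∈ T, σ₀ (a c) = b c := by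
    let e1 : T ≃ {x // x ∈ T.image a} := by
      refine Equiv.ofBijective (fun c => ⟨a c.1, mem_image_of_mem _ c.2⟩) ⟨?_, ?_⟩
      · intro c d h
        apply Subtype.ext
        exact ha c.2 d.2 (by simpa using h)
      · rintro ⟨x, hx⟩
        obtain ⟨c, hc, rfl⟩ := mem_image.1 hx
        exact ⟨⟨c, hc⟩, rfl⟩
    let e2 : T ≃ {x // x ∈ T.image b} := by
      refine Equiv.ofBijective (fun c => ⟨b c.1, mem_image_of_mem _ c.2⟩) ⟨?_, ?_⟩
      · intro c d h
        apply Subtype.ext
        exact hb c.2 d.2 (by simpa using h)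
      · rintro ⟨x, hx⟩
        obtain ⟨c, hc, rfl⟩ := mem_image.1 hx
        exact ⟨⟨c, hc⟩, rfl⟩
    let e : {x // x ∈ T.image a} ≃ {x // x ∈ T.image b} := e1.symm.trans e2
    refine ⟨e.extendSubtype, fun c hc => ?_⟩
    rw [Equiv.extendSubtype_apply_of_mem _ _ (mem_image_of_mem _ hc)]
    have : e1.symm ⟨a c, mem_image_of_mem _ hc⟩ = ⟨c, hc⟩ := by
      rw [Equiv.symm_apply_eq]; rfl
    simp only [e, Equiv.trans_apply, this]
    rfl
  obtain ⟨σ₀, h0⟩ := hex
  have h1 : (univ.filter (fun σ : Perm α => ∀ c ∈ T, σ (a c) = b c)).card =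
      (univ.filter (fun τ : Perm α => ∀ x, ¬ (x ∉ T.image a) → τ x = x)).card := by
    refine card_bij' (fun σ _ => σ₀⁻¹ * σ) (fun τ _ => σ₀ * τ) ?_ ?_ ?_ ?_
    · intro σ hσ
      simp only [mem_filter, mem_univ, true_and] at hσ ⊢
      intro x hx
      obtain ⟨c, hc, rfl⟩ := mem_image.1 (not_not.1 hx)
      rw [Perm.mul_apply, hσ c hc, ← h0 c hc]
      simp
    · intro τ hτ
      simp only [mem_filter, mem_univ, true_and] at hτ ⊢
      intro c hc
      rw [Perm.mul_apply, hτ _ (not_not.2 (mem_image_of_mem _ hc)), h0 c hc]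
    · intro σ _; simp
    · intro σ _; simp
  rw [h1, ← Fintype.card_subtype]
  rw [Fintype.card_congr (Equiv.Perm.subtypeEquivSubtypePerm (fun x => x ∉ T.image a)).symm]
  rw [Fintype.card_perm]
  congr 1
  rw [Fintype.card_subtype_compl, Fintype.card_coe, card_image_of_injOn ha]

/-- no two consecutive elements -/
def Ind (T : Finset ℕ) : Prop := ∀ c ∈ T, c + 1 ∉ T

instance (T : Finset ℕ) : Decidable (Ind T) := by unfold Ind; infer_instance

/-- generating polynomial of the independent subsets of `range L` disjoint from `E` -/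
noncomputable def Sg (E : Finset ℕ) (L : ℕ) : ℤ[X] :=
  ∑ T ∈ (range L).powerset, if Ind T ∧ Disjoint T E then X ^ T.card else 0

theorem Sg_zero (E : Finset ℕ) : Sg E 0 = 1 := by
  simp [Sg, Ind]

theorem Sg_one {E : Finset ℕ} (h : 0 ∉ E) : Sg E 1 = 1 + X := by
  have : (range 1).powerset = {∅, {0}} := by decide
  rw [Sg, this, sum_pair (by decide)]
  simp [Ind, h]

theorem Sg_succ_mem {E : Finset ℕ} {L : ℕ} (h : L ∈ E) : Sg E (L + 1) = Sg E L := by
  rw [Sg, Sg, range_add_one, sum_powerset_insert (by simp)]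
  rw [add_eq_left]
  refine sum_eq_zero fun T _ => ?_
  rw [if_neg]
  rintro ⟨-, hd⟩
  exact disjoint_left.1 hd (mem_insert_self _ _) h

theorem Sg_rec {E : Finset ℕ} {L : ℕ} (h : L + 1 ∉ E) : Sg E (L + 2) = Sg E (L + 1) + X * Sg E L := by
  have e : Sg E (L + 2) = ∑ T ∈ (range (L + 2)).powerset, if Ind T ∧ Disjoint T E then X ^ T.card else 0 := rfl
  rw [e, range_add_one, sum_powerset_insert (by simp)]
  congr 1
  rw [range_add_one, sum_powerset_insert (by simp)]
  have z : ∑ T ∈ (range L).powerset, (if Ind (insert (L + 1) (insert L T)) ∧ Disjoint (insert (L + 1) (insert L T)) E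
      then (X : ℤ[X]) ^ (insert (L + 1) (insert L T)).card else 0) = 0 := by
    refine sum_eq_zero fun T _ => ?_
    rw [if_neg]
    rintro ⟨hi, -⟩
    exact hi L (by simp) (by simp)
  rw [z, add_zero, Sg, mul_sum]
  refine sum_congr rfl fun T hT => ?_
  have hT' : ∀ x ∈ T, x < L := fun x hx => mem_range.1 (mem_powerset.1 hT hx)
  have hn : L + 1 ∉ T := fun hx => by have := hT' _ hx; omega
  rw [card_insert_of_notMem hn, pow_succ']
  have hi : Ind (insert (L + 1) T) ↔ Ind T := by
    constructor
    · intro hi c hc hc'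
      exact hi c (mem_insert_of_mem hc) (mem_insert_of_mem hc')
    · intro hi c hc hc'
      rcases mem_insert.1 hc with rfl | hc
      · rcases mem_insert.1 hc' with h2 | h2
        · omega
        · have := hT' _ h2; omega
      · rcases mem_insert.1 hc' with h2 | h2
        · have := hT' _ hc; omega
        · exact hi c hc h2
  have hd : Disjoint (insert (L + 1) T) E ↔ Disjoint T E := by
    rw [disjoint_insert_left]; simp [h]
  simp only [hi, hd]
  split_ifs <;> simp

/-- independence polynomials of paths -/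
noncomputable def P (L : ℕ) : ℤ[X] := Sg ∅ L

theorem P_zero : P 0 = 1 := Sg_zero _
theorem P_one : P 1 = 1 + X := Sg_one (by simp)
theorem P_rec (L : ℕ) : P (L + 2) = P (L + 1) + X * P L := Sg_rec (by simp)

theorem Sg_low {E : Finset ℕ} {L : ℕ} (h : ∀ x ∈ E, L ≤ x) : Sg E L = P L := by
  rw [Sg, P, Sg]
  refine sum_congr rfl fun T hT => ?_
  have : Disjoint T E := by
    rw [disjoint_left]
    intro x hx hx'
    have h1 := mem_range.1 (mem_powerset.1 hT hx)
    have h2 := h x hx'
    omega
  simp [this]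

theorem Sg_prod (j : ℕ) (t : ℕ) : Sg {2 * j + 1, 2 * j + 2} (2 * j + 3 + t) = P (2 * j + 1) * P t := by
  have h1 : Sg {2 * j + 1, 2 * j + 2} (2 * j + 1) = P (2 * j + 1) := by
    apply Sg_low
    intro x hx
    simp at hx
    omega
  have h2 : Sg {2 * j + 1, 2 * j + 2} (2 * j + 2) = P (2 * j + 1) := by
    rw [Sg_succ_mem (by simp), h1]
  have h3 : Sg {2 * j + 1, 2 * j + 2} (2 * j + 3) = P (2 * j + 1) := by
    rw [Sg_succ_mem (by simp), h2]
  have h4 : Sg {2 * j + 1, 2 * j + 2} (2 * j + 4) = P (2 * j + 1) * (1 + X) := by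
    rw [Sg_rec (L := 2 * j + 2) (by simp), h3, h2]; ring
  induction t using Nat.strong_induction_on with
  | _ t ih =>
    match t, ih with
    | 0, _ => rw [P_zero, mul_one]; exact h3
    | 1, _ => rw [P_one]; exact h4
    | t + 2, ih =>
      have := Sg_rec (E := {2 * j + 1, 2 * j + 2}) (L := 2 * j + 3 + t) (by simp; omega)
      rw [show 2 * j + 3 + (t + 2) = 2 * j + 3 + t + 2 by ring, this, ih t (by omega),
        show 2 * j + 3 + t + 1 = 2 * j + 3 + (t + 1) by ring, ih (t + 1) (by omega), P_rec]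
      ring

theorem P_identity (a d : ℕ) : P a * P (a + 4 + d) - P (a + 2) * P (a + 2 + d) = - (-X) ^ (a + 2) * P d := by
  induction a with
  | zero =>
    have e2 : P 2 = 1 + 2 * X := by rw [P_rec 0, P_one, P_zero]; ring
    have e4 : P (4 + d) = P (3 + d) + X * P (2 + d) := by
      have := P_rec (2 + d); rw [show 2 + d + 2 = 4 + d by ring, show 2 + d + 1 = 3 + d by ring] at this; exact this
    have e3 : P (3 + d) = P (2 + d) + X * P (1 + d) := by
      have := P_rec (1 + d); rw [show 1 + d + 2 = 3 + d by ring, show 1 + d + 1 = 2 + d by ring] at this; exact this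
    have e5 : P (2 + d) = P (1 + d) + X * P d := by
      have := P_rec d; rw [show d + 2 = 2 + d by ring, show d + 1 = 1 + d by ring] at this; exact this
    simp only [zero_add, P_zero, e2, e4, e3]
    have e6 : X * P d = P (2 + d) - P (1 + d) := by rw [e5]; ring
    linear_combination X * e6
  | succ a ih =>
    have e1 : P (a + 1 + 4 + d) = P (a + 4 + d) + X * P (a + 3 + d) := by
      have := P_rec (a + 3 + d)
      rw [show a + 3 + d + 2 = a + 1 + 4 + d by ring, show a + 3 + d + 1 = a + 4 + d by ring] at this; exact this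
    have e2 : P (a + 4 + d) = P (a + 3 + d) + X * P (a + 2 + d) := by
      have := P_rec (a + 2 + d)
      rw [show a + 2 + d + 2 = a + 4 + d by ring, show a + 2 + d + 1 = a + 3 + d by ring] at this; exact this
    have e3 : P (a + 1 + 2) = P (a + 2) + X * P (a + 1) := by
      have := P_rec (a + 1)
      rw [show a + 1 + 1 = a + 2 by ring] at this; exact this
    have e4 : P (a + 2) = P (a + 1) + X * P a := P_rec a
    have e5 : P (a + 1 + 2 + d) = P (a + 3 + d) := by rw [show a + 1 + 2 + d = a + 3 + d by ring]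
    rw [e5, e1, e3]
    have e6 : (-X : ℤ[X]) ^ (a + 1 + 2) = (-X) ^ (a + 2) * (-X) := by rw [show a + 1 + 2 = a + 2 + 1 by ring, pow_succ]
    rw [e6]
    have ih' : - (-X) ^ (a + 2) * P d = P a * P (a + 4 + d) - P (a + 2) * P (a + 2 + d) := ih.symm
    linear_combination X * ih' + P (a + 2) * e2 - P (a + 4 + d) * e4

/-- the functional `X^k ↦ (-2)^k (N-k)!` -/
noncomputable def Lam (N : ℕ) (f : ℤ[X]) : ℤ := f.sum fun k a => a * ((-2) ^ k * ((N - k).factorial : ℤ))

theorem Lam_add (N : ℕ) (f g : ℤ[X]) : Lam N (f + g) = Lam N f + Lam N g := by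
  unfold Lam
  rw [Polynomial.sum_add_index]
  · intro i; simp
  · intro i a b; ring

theorem Lam_zero (N : ℕ) : Lam N 0 = 0 := by simp [Lam]

theorem Lam_smul (N : ℕ) (z : ℤ) (f : ℤ[X]) : Lam N (C z * f) = z * Lam N f := by
  unfold Lam
  rw [← smul_eq_C_mul, Polynomial.sum_smul_index]
  · rw [Polynomial.sum, Polynomial.sum, Finset.mul_sum]
    refine sum_congr rfl fun k _ => ?_
    ring
  · intro i; simp

theorem Lam_neg (N : ℕ) (f : ℤ[X]) : Lam N (-f) = - Lam N f := by
  have := Lam_smul N (-1) f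
  simpa using this

theorem Lam_sub (N : ℕ) (f g : ℤ[X]) : Lam N (f - g) = Lam N f - Lam N g := by
  rw [sub_eq_add_neg, Lam_add, Lam_neg, sub_eq_add_neg]

theorem Lam_X_pow (N k : ℕ) : Lam N (X ^ k) = (-2) ^ k * ((N - k).factorial : ℤ) := by
  unfold Lam
  rw [← monomial_one_right_eq_X_pow, Polynomial.sum_monomial_index]
  · ring
  · simp

theorem Lam_sum {ι : Type*} (N : ℕ) (s : Finset ι) (f : ι → ℤ[X]) :
    Lam N (∑ i ∈ s, f i) = ∑ i ∈ s, Lam N (f i) := by
  classical
  induction s using Finset.induction_on with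
  | empty => simp [Lam_zero]
  | insert a s ha ih => rw [sum_insert ha, sum_insert ha, Lam_add, ih]

theorem Lam_X_mul (N : ℕ) (f : ℤ[X]) : Lam N (X * f) = -2 * Lam (N - 1) f := by
  induction f using Polynomial.induction_on' with
  | add p q hp hq => rw [mul_add, Lam_add, Lam_add, hp, hq]; ring
  | monomial k a =>
    rw [← C_mul_X_pow_eq_monomial]
    rw [show (X : ℤ[X]) * (C a * X ^ k) = C a * X ^ (k + 1) by ring]
    rw [Lam_smul, Lam_smul, Lam_X_pow, Lam_X_pow, show N - (k + 1) = N - 1 - k by omega]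
    ring

theorem Lam_X_pow_mul (N k : ℕ) (f : ℤ[X]) : Lam N (X ^ k * f) = (-2) ^ k * Lam (N - k) f := by
  induction k generalizing N with
  | zero => simp
  | succ k ih =>
    rw [pow_succ', mul_assoc, Lam_X_mul, ih, pow_succ', show N - 1 - k = N - (k + 1) by omega]
    ring

theorem bounds (b : ℕ) : ∀ N : ℕ, 2 * b + 1 ≤ N →
    Lam N (P b) ≤ (N.factorial : ℤ) ∧ (N.factorial : ℤ) - 2 * b * ((N - 1).factorial : ℤ) ≤ Lam N (P b) := by
  induction b using Nat.strong_induction_on with
  | _ b ih =>
    intro N hN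
    match b, ih, hN with
    | 0, _, _ =>
      have e0 := Lam_X_pow N 0
      rw [pow_zero, pow_zero, Nat.sub_zero, one_mul] at e0
      rw [P_zero, e0]
      simp
    | 1, _, _ =>
      have e0 := Lam_X_pow N 0
      have e1 := Lam_X_pow N 1
      rw [pow_zero, pow_zero, Nat.sub_zero, one_mul] at e0
      rw [pow_one, pow_one] at e1
      rw [P_one, Lam_add, e0, e1]
      have : (0 : ℤ) < ((N - 1).factorial : ℤ) := by exact_mod_cast Nat.factorial_pos _
      push_cast
      constructor <;> linarith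
    | b + 2, ih, hN =>
      obtain ⟨h1, h2⟩ := ih (b + 1) (by omega) N (by omega)
      obtain ⟨h3, h4⟩ := ih b (by omega) (N - 1) (by omega)
      rw [P_rec, Lam_add, Lam_X_mul]
      have hpos : (0 : ℤ) ≤ Lam (N - 1) (P b) := by
        refine le_trans ?_ h4
        have e : (N - 1).factorial = (N - 1) * (N - 1 - 1).factorial := by
          rw [Nat.mul_factorial_pred (by omega)]
        rw [e]
        push_cast
        have h5 : (2 * (b : ℤ)) ≤ ((N - 1 : ℕ) : ℤ) := by
          have : 2 * b ≤ N - 1 := by omega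
          exact_mod_cast this
        have h6 : (0 : ℤ) ≤ ((N - 1 - 1).factorial : ℤ) := by positivity
        nlinarith
      push_cast at h2 ⊢
      constructor
      · linarith
      · linarith

end Pool.Agent.R397.PP
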