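import Mathlib
import Pool.Agent.R397.PerPath

set_option autoImplicit false

open Finset Polynomial Equiv

namespace Pool.Agent.R397.PP

/-- the index `j` -/
def fz (k : ℕ) (j : ℕ) : Fin (k + 1) := ⟨j % (k + 1), Nat.mod_lt _ (Nat.succ_pos _)⟩
theorem fz_val {k j : ℕ} (h : j < k + 1) : ((fz k j : Fin (k + 1)) : ℕ) = j := Nat.mod_eq_of_lt h

/-- row of the cell `c` -/
def rw' (k : ℕ) (c : ℕ) : Fin (k + 1) := fz k (c / 2)
/-- column of the cell `c` -/
def cl (k : ℕ) (c : ℕ) : Fin (k + 1) := fz k ((c + 1) / 2)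

theorem rw'_val {k c : ℕ} (h : c / 2 < k + 1) : ((rw' k c : Fin (k + 1)) : ℕ) = c / 2 := fz_val h
theorem cl_val {k c : ℕ} (h : (c + 1) / 2 < k + 1) : ((cl k c : Fin (k + 1)) : ℕ) = (c + 1) / 2 := fz_val h

/-- weight of the cell `c` -/
def w (k : ℕ) (c : ℕ) (σ : Perm (Fin (k + 1))) : ℤ := if σ (rw' k c) = cl k c then -2 else 0

/-- the matrix -/
def A (k m : ℕ) (ε : Fin (k + 1) → ℤ) : Matrix (Fin (k + 1)) (Fin (k + 1)) ℤ := fun c i =>
  if i = Fin.last k then ε c else if (i : ℕ) < m ∧ ((c : ℕ) = i ∨ (c : ℕ) = i + 1) then -1 else 1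

/-- the minors -/
def pm (k m : ℕ) (j : Fin (k + 1)) : ℤ :=
  ∑ σ : Perm (Fin (k + 1)), if σ (Fin.last k) = j then ∏ c ∈ range (2 * m), (1 + w k c σ) else 0

theorem prod_cells (k m : ℕ) (h : m ≤ k) (σ : Perm (Fin (k + 1))) :
    ∏ i : Fin k, (if ((Fin.castSucc i : Fin (k + 1)) : ℕ) < m ∧
      ((σ (Fin.castSucc i) : ℕ) = (Fin.castSucc i : Fin (k + 1)) ∨ (σ (Fin.castSucc i) : ℕ) = (Fin.castSucc i : Fin (k + 1)) + 1)
      then (-1 : ℤ) else 1) = ∏ c ∈ range (2 * m), (1 + w k c σ) := by
  have h1 : ∀ i : Fin k, (if ((Fin.castSucc i : Fin (k + 1)) : ℕ) < m ∧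
      ((σ (Fin.castSucc i) : ℕ) = (Fin.castSucc i : Fin (k + 1)) ∨ (σ (Fin.castSucc i) : ℕ) = (Fin.castSucc i : Fin (k + 1)) + 1)
      then (-1 : ℤ) else 1) = (fun i : ℕ => if i < m then (1 + w k (2 * i) σ) * (1 + w k (2 * i + 1) σ) else 1) (i : ℕ) := by
    intro i
    have hi := i.2
    simp only [Fin.val_castSucc]
    by_cases him : (i : ℕ) < m
    · have e1 : rw' k (2 * (i : ℕ)) = Fin.castSucc i := by
        apply Fin.ext
        rw [rw'_val (by omega)]; simp
      have e2 : rw' k (2 * (i : ℕ) + 1) = Fin.castSucc i := by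
        apply Fin.ext
        rw [rw'_val (by omega)]; simp; omega
      have e3 : (σ (Fin.castSucc i) = cl k (2 * (i : ℕ))) ↔ ((σ (Fin.castSucc i) : ℕ) = i) := by
        rw [Fin.ext_iff, cl_val (by omega)]
        constructor <;> intro h <;> omega
      have e4 : (σ (Fin.castSucc i) = cl k (2 * (i : ℕ) + 1)) ↔ ((σ (Fin.castSucc i) : ℕ) = i + 1) := by
        rw [Fin.ext_iff, cl_val (by omega)]
        constructor <;> intro h <;> omega
      simp only [him, true_and, if_true, w, e1, e2, e3, e4]
      by_cases c1 : (σ (Fin.castSucc i) : ℕ) = i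
      · have c2 : ¬ (σ (Fin.castSucc i) : ℕ) = i + 1 := by omega
        simp [c1]
      · by_cases c2 : (σ (Fin.castSucc i) : ℕ) = i + 1
        · simp [c2]
        · simp [c1, c2]
    · simp [him]
  rw [Finset.prod_congr rfl (fun i _ => h1 i)]
  rw [Fin.prod_univ_eq_prod_range (fun i : ℕ => if i < m then (1 + w k (2 * i) σ) * (1 + w k (2 * i + 1) σ) else 1) k]
  have h2 : ∏ i ∈ range k, (if i < m then (1 + w k (2 * i) σ) * (1 + w k (2 * i + 1) σ) else 1) =
      ∏ i ∈ range m, (1 + w k (2 * i) σ) * (1 + w k (2 * i + 1) σ) := by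
    rw [← prod_filter]
    congr 1
    ext i
    simp only [mem_filter, mem_range]
    omega
  rw [h2]
  clear h1 h2 h
  induction m with
  | zero => simp
  | succ m ih =>
    rw [prod_range_succ, ih, show 2 * (m + 1) = 2 * m + 1 + 1 by ring, prod_range_succ, prod_range_succ]
    ring

theorem per_A (k m : ℕ) (h : m ≤ k) (ε : Fin (k + 1) → ℤ) :
    (A k m ε).permanent = ∑ j, ε j * pm k m j := by
  unfold Matrix.permanent
  have h1 : ∀ σ : Perm (Fin (k + 1)), ∏ i, A k m ε (σ i) i =
      ε (σ (Fin.last k)) * ∏ c ∈ range (2 * m), (1 + w k c σ) := by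
    intro σ
    rw [Fin.prod_univ_castSucc, mul_comm]
    congr 1
    · simp [A]
    · rw [← prod_cells k m h σ]
      refine prod_congr rfl fun i _ => ?_
      unfold A
      rw [if_neg (Fin.castSucc_lt_last i).ne]
  rw [sum_congr rfl (fun σ _ => h1 σ)]
  unfold pm
  simp_rw [mul_sum]
  rw [sum_comm]
  refine sum_congr rfl fun σ _ => ?_
  simp

theorem count (k m j : ℕ) (hm : m + 1 ≤ k) (hj : 1 ≤ j) (hj' : j ≤ k) (T : Finset ℕ) (hT : T ⊆ range (2 * m)) :
    (∑ σ : Perm (Fin (k + 1)), if σ (Fin.last k) = fz k j then ∏ c ∈ T, w k c σ else 0) =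
      if Ind T ∧ Disjoint T {2 * j - 1, 2 * j} then (-2) ^ T.card * ((k - T.card).factorial : ℤ) else 0 := by
  have hTm : ∀ c ∈ T, c < 2 * m := fun c hc => mem_range.1 (hT hc)
  have jv : ((fz k j : Fin (k + 1)) : ℕ) = j := fz_val (by omega)
  let a : Option ℕ → Fin (k + 1) := fun o => o.elim (Fin.last k) (rw' k)
  let b : Option ℕ → Fin (k + 1) := fun o => o.elim (fz k j) (cl k)
  have h1 : ∀ σ : Perm (Fin (k + 1)), (if σ (Fin.last k) = fz k j then ∏ c ∈ T, w k c σ else 0) =
      if (∀ o ∈ insertNone T, σ (a o) = b o) then (-2 : ℤ) ^ T.card else 0 := by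
    intro σ
    by_cases h0 : ∀ o ∈ insertNone T, σ (a o) = b o
    · have h2 : σ (Fin.last k) = fz k j := h0 none (by simp)
      rw [if_pos h2, if_pos h0]
      rw [prod_congr rfl (g := fun _ => (-2 : ℤ)), prod_const]
      intro c hc
      have := h0 (some c) (by simpa using hc)
      exact if_pos this
    · rw [if_neg h0]
      split_ifs with h2
      · push Not at h0
        obtain ⟨o, ho, ho'⟩ := h0
        cases o with
        | none => exact absurd h2 ho'
        | some c =>
          rw [some_mem_insertNone] at ho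
          exact prod_eq_zero ho (if_neg ho')
      · rfl
  rw [sum_congr rfl (fun σ _ => h1 σ), ← sum_filter, sum_const]
  by_cases hg : Ind T ∧ Disjoint T {2 * j - 1, 2 * j}
  · rw [if_pos hg]
    obtain ⟨hi, hd⟩ := hg
    rw [disjoint_right] at hd
    have hd1 : 2 * j - 1 ∉ T := hd (by simp)
    have hd2 : 2 * j ∉ T := hd (by simp)
    have ha : Set.InjOn a (insertNone T : Finset (Option ℕ)) := by
      intro x hx y hy hxy
      rw [mem_coe] at hx hy
      cases x with
      | none =>
        cases y with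
        | none => rfl
        | some y =>
          rw [some_mem_insertNone] at hy
          have e := congrArg (fun z : Fin (k + 1) => (z : ℕ)) hxy
          simp only [a, Option.elim] at e
          have := hTm y hy
          rw [rw'_val (by omega), Fin.val_last] at e
          omega
      | some x =>
        rw [some_mem_insertNone] at hx
        have hxx := hTm x hx
        cases y with
        | none =>
          have e := congrArg (fun z : Fin (k + 1) => (z : ℕ)) hxy
          simp only [a, Option.elim] at e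
          rw [rw'_val (by omega), Fin.val_last] at e
          omega
        | some y =>
          rw [some_mem_insertNone] at hy
          have hyy := hTm y hy
          have e := congrArg (fun z : Fin (k + 1) => (z : ℕ)) hxy
          simp only [a, Option.elim] at e
          rw [rw'_val (by omega), rw'_val (by omega)] at e
          by_contra hne
          have hne' : x ≠ y := fun h => hne (by rw [h])
          rcases lt_or_gt_of_ne hne' with hlt | hlt
          · have : y = x + 1 := by omega
            exact hi x hx (this ▸ hy)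
          · have : x = y + 1 := by omega
            exact hi y hy (this ▸ hx)
    have hb : Set.InjOn b (insertNone T : Finset (Option ℕ)) := by
      intro x hx y hy hxy
      rw [mem_coe] at hx hy
      cases x with
      | none =>
        cases y with
        | none => rfl
        | some y =>
          rw [some_mem_insertNone] at hy
          have e := congrArg (fun z : Fin (k + 1) => (z : ℕ)) hxy
          simp only [b, Option.elim] at e
          have := hTm y hy
          rw [cl_val (by omega), jv] at e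
          have h3 : y = 2 * j - 1 ∨ y = 2 * j := by omega
          rcases h3 with rfl | rfl
          · exact absurd hy hd1
          · exact absurd hy hd2
      | some x =>
        rw [some_mem_insertNone] at hx
        have hxx := hTm x hx
        cases y with
        | none =>
          have e := congrArg (fun z : Fin (k + 1) => (z : ℕ)) hxy
          simp only [b, Option.elim] at e
          rw [cl_val (by omega), jv] at e
          have h3 : x = 2 * j - 1 ∨ x = 2 * j := by omega
          rcases h3 with rfl | rfl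
          · exact absurd hx hd1
          · exact absurd hx hd2
        | some y =>
          rw [some_mem_insertNone] at hy
          have hyy := hTm y hy
          have e := congrArg (fun z : Fin (k + 1) => (z : ℕ)) hxy
          simp only [b, Option.elim] at e
          rw [cl_val (by omega), cl_val (by omega)] at e
          by_contra hne
          have hne' : x ≠ y := fun h => hne (by rw [h])
          rcases lt_or_gt_of_ne hne' with hlt | hlt
          · have : y = x + 1 := by omega
            exact hi x hx (this ▸ hy)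
          · have : x = y + 1 := by omega
            exact hi y hy (this ▸ hx)
    rw [card_perm_prescribed (insertNone T) a b ha hb, card_insertNone, Fintype.card_fin,
      show k + 1 - (T.card + 1) = k - T.card by omega, nsmul_eq_mul]
    ring
  · rw [if_neg hg]
    have : (univ.filter (fun σ : Perm (Fin (k + 1)) => ∀ o ∈ insertNone T, σ (a o) = b o)) = ∅ := by
      rw [filter_eq_empty_iff]
      intro σ _ hσ
      apply hg
      constructor
      · intro c hc hc'
        have s1 := hσ (some c) (by simpa using hc)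
        have s2 := hσ (some (c + 1)) (by simpa using hc')
        simp only [a, b, Option.elim] at s1 s2
        have hcm := hTm _ hc'
        rcases Nat.even_or_odd' c with ⟨i, rfl | rfl⟩
        · have e : rw' k (2 * i) = rw' k (2 * i + 1) := by
            apply Fin.ext
            rw [rw'_val (by omega), rw'_val (by omega)]; omega
          rw [← e, s1] at s2
          have e' := congrArg (fun z : Fin (k + 1) => (z : ℕ)) s2
          rw [cl_val (by omega), cl_val (by omega)] at e'
          omega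
        · have e : cl k (2 * i + 1) = cl k (2 * i + 1 + 1) := by
            apply Fin.ext
            rw [cl_val (by omega), cl_val (by omega)]; omega
          rw [e, ← s2] at s1
          have e' := congrArg (fun z : Fin (k + 1) => (z : ℕ)) (σ.injective s1)
          rw [rw'_val (by omega), rw'_val (by omega)] at e'
          omega
      · rw [disjoint_right]
        intro c hc hc'
        have s0 := hσ none (by simp)
        have s1 := hσ (some c) (by simpa using hc')
        simp only [a, b, Option.elim] at s0 s1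
        have hcm := hTm _ hc'
        have hc2 : (c + 1) / 2 = j := by
          rw [mem_insert, mem_singleton] at hc
          omega
        have e : cl k c = fz k j := by
          apply Fin.ext
          rw [cl_val (by omega), jv, hc2]
        rw [e, ← s0] at s1
        have e' := congrArg (fun z : Fin (k + 1) => (z : ℕ)) (σ.injective s1)
        rw [rw'_val (by omega), Fin.val_last] at e'
        omega
    rw [this]
    simp

theorem pm_eq (k m j : ℕ) (hm : m + 1 ≤ k) (hj : 1 ≤ j) (hj' : j ≤ k) :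
    pm k m (fz k j) = Lam k (Sg {2 * j - 1, 2 * j} (2 * m)) := by
  unfold pm Sg
  rw [Lam_sum]
  simp_rw [prod_one_add]
  have h1 : ∀ σ : Perm (Fin (k + 1)), (if σ (Fin.last k) = fz k j then
      ∑ T ∈ (range (2 * m)).powerset, ∏ c ∈ T, w k c σ else 0) =
      ∑ T ∈ (range (2 * m)).powerset, if σ (Fin.last k) = fz k j then ∏ c ∈ T, w k c σ else 0 := by
    intro σ
    split_ifs <;> simp
  rw [sum_congr rfl (fun σ _ => h1 σ), sum_comm]
  refine sum_congr rfl fun T hT => ?_
  rw [count k m j hm hj hj' T (mem_powerset.1 hT)]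
  split_ifs
  · rw [Lam_X_pow]
  · rw [Lam_zero]

theorem pm_eq' (k m j : ℕ) (hm : m + 1 ≤ k) (hj : j + 1 ≤ k) (hj' : j + 2 ≤ m) :
    pm k m (fz k (j + 1)) = Lam k (P (2 * j + 1) * P (2 * m - 2 * j - 3)) := by
  rw [pm_eq k m (j + 1) hm (by omega) hj]
  have : ({2 * (j + 1) - 1, 2 * (j + 1)} : Finset ℕ) = {2 * j + 1, 2 * j + 2} := by
    rw [show 2 * (j + 1) - 1 = 2 * j + 1 by omega, show 2 * (j + 1) = 2 * j + 2 by ring]
  rw [this, ← Sg_prod, show 2 * j + 3 + (2 * m - 2 * j - 3) = 2 * m by omega]

theorem pm_diff (k m j d : ℕ) (hm : m + 1 ≤ k) (hj : 2 * m = 4 * j + 8 + d) :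
    pm k m (fz k (j + 1)) - pm k m (fz k (j + 2)) =
      (-2) ^ (2 * j + 3) * Lam (k - (2 * j + 3)) (P d) := by
  rw [pm_eq' k m j hm (by omega) (by omega), show j + 2 = (j + 1) + 1 by ring,
    pm_eq' k m (j + 1) hm (by omega) (by omega), ← Lam_sub, ← Lam_X_pow_mul]
  congr 1
  have := P_identity (2 * j + 1) d
  rw [show 2 * m - 2 * j - 3 = 2 * j + 1 + 4 + d by omega,
    show 2 * m - 2 * (j + 1) - 3 = 2 * j + 1 + 2 + d by omega, show 2 * (j + 1) + 1 = 2 * j + 1 + 2 by ring, this]
  have e : (-X : ℤ[X]) ^ (2 * j + 1 + 2) = - X ^ (2 * j + 3) := by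
    rw [show 2 * j + 1 + 2 = 2 * j + 3 by ring]
    exact Odd.neg_pow ⟨j + 1, by ring⟩ X
  rw [e]; ring

/-- signed sums of a lacunary sequence are distinct -/
theorem lacunary (h : ℕ) (q : ℕ → ℤ) (hpos : ∀ i < h, 0 < q i) (hq : ∀ i, i + 1 < h → 2 * q (i + 1) ≤ q i)
    (s t : ℕ → ℤ) (hs : ∀ i, s i = 1 ∨ s i = -1) (ht : ∀ i, t i = 1 ∨ t i = -1)
    (heq : ∑ i ∈ range h, s i * q i = ∑ i ∈ range h, t i * q i) : ∀ i < h, s i = t i := by
  have tail : ∀ i < h, ∑ l ∈ Ico (i + 1) h, q l < q i := by
    have key : ∀ d i, i + d + 1 = h → ∑ l ∈ Ico (i + 1) h, q l + q (h - 1) ≤ q i := by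
      intro d
      induction d with
      | zero =>
        intro i hi
        subst hi
        simp
      | succ d ih =>
        intro i hi
        have := ih (i + 1) (by omega)
        rw [sum_eq_sum_Ico_succ_bot (by omega)]
        have h2 := hq i (by omega)
        linarith
    intro i hi
    have := key (h - 1 - i) i (by omega)
    have h2 := hpos (h - 1) (by omega)
    linarith
  by_contra hcon
  push Not at hcon
  classical
  let i₀ := Nat.find hcon
  have h0 : i₀ < h ∧ s i₀ ≠ t i₀ := Nat.find_spec hcon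
  have h0' : ∀ i < i₀, s i = t i := by
    intro i hi
    have := Nat.find_min hcon hi
    by_contra hne
    exact this ⟨hi.trans h0.1, hne⟩
  have h1 : ∑ i ∈ range h, (s i - t i) * q i = 0 := by
    simp_rw [sub_mul]
    rw [sum_sub_distrib, heq, sub_self]
  rw [← sum_range_add_sum_Ico _ h0.1.le, sum_eq_sum_Ico_succ_bot h0.1] at h1
  have h2 : ∑ i ∈ range i₀, (s i - t i) * q i = 0 :=
    sum_eq_zero fun i hi => by rw [h0' i (mem_range.1 hi)]; ring
  rw [h2, zero_add] at h1
  have h3 : |∑ i ∈ Ico (i₀ + 1) h, (s i - t i) * q i| ≤ 2 * ∑ i ∈ Ico (i₀ + 1) h, q i := by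
    refine (abs_sum_le_sum_abs _ _).trans ?_
    rw [mul_sum]
    refine sum_le_sum fun i hi => ?_
    rw [mem_Ico] at hi
    have hp := hpos i hi.2
    rw [abs_mul, abs_of_pos hp]
    refine mul_le_mul_of_nonneg_right ?_ hp.le
    rcases hs i with e | e <;> rcases ht i with e' | e' <;> rw [e, e'] <;> norm_num
  have h4 : |(s i₀ - t i₀) * q i₀| = 2 * q i₀ := by
    have hp := hpos i₀ h0.1
    rw [abs_mul, abs_of_pos hp]
    congr 1
    have hne := h0.2
    rcases hs i₀ with e | e <;> rcases ht i₀ with e' | e' <;> rw [e, e'] at hne ⊢ <;> first | (exact absurd rfl hne) | norm_num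
  have h5 : |(s i₀ - t i₀) * q i₀| = |∑ i ∈ Ico (i₀ + 1) h, (s i - t i) * q i| := by
    rw [show (s i₀ - t i₀) * q i₀ = - ∑ i ∈ Ico (i₀ + 1) h, (s i - t i) * q i by linarith, abs_neg]
  have h6 := tail i₀ h0.1
  rw [h4] at h5
  rw [← h5] at h3
  linarith

/-- the numbers `q i` -/
noncomputable def q (k h i : ℕ) : ℤ := 2 ^ (4 * i + 3) * Lam (k - (4 * i + 3)) (P (8 * (h - 1 - i)))

theorem q_bounds {k h i : ℕ} (hk : 100 * h ≤ k) (hi : i < h) :
    ((k - (4 * i + 3)).factorial : ℤ) * 2 ^ (4 * i + 3) ≤ 2 * q k h i ∧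
      q k h i ≤ ((k - (4 * i + 3)).factorial : ℤ) * 2 ^ (4 * i + 3) := by
  obtain ⟨h1, h2⟩ := bounds (8 * (h - 1 - i)) (k - (4 * i + 3)) (by omega)
  have h3 : ((k - (4 * i + 3)).factorial : ℤ) = ((k - (4 * i + 3) : ℕ) : ℤ) * ((k - (4 * i + 3) - 1).factorial : ℤ) := by
    rw [← Nat.mul_factorial_pred (show k - (4 * i + 3) ≠ 0 by omega)]
    push_cast; ring
  have h4 : 4 * ((8 * (h - 1 - i) : ℕ) : ℤ) ≤ ((k - (4 * i + 3) : ℕ) : ℤ) := by
    have : 4 * (8 * (h - 1 - i)) ≤ k - (4 * i + 3) := by omega
    exact_mod_cast this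
  have h5 : (0 : ℤ) ≤ ((k - (4 * i + 3) - 1).factorial : ℤ) := by positivity
  have h6 : ((k - (4 * i + 3)).factorial : ℤ) ≤ 2 * Lam (k - (4 * i + 3)) (P (8 * (h - 1 - i))) := by
    have := mul_le_mul_of_nonneg_right h4 h5
    rw [← h3] at this
    linarith
  have h7 : (0 : ℤ) < 2 ^ (4 * i + 3) := by positivity
  unfold q
  constructor
  · nlinarith
  · nlinarith

theorem q_pos {k h i : ℕ} (hk : 100 * h ≤ k) (hi : i < h) : 0 < q k h i := by
  have h1 := (q_bounds hk hi).1
  have h2 : (0 : ℤ) < ((k - (4 * i + 3)).factorial : ℤ) * 2 ^ (4 * i + 3) := by positivity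
  linarith

theorem q_decay {k h i : ℕ} (hk : 100 * h ≤ k) (hi : i + 1 < h) : 2 * q k h (i + 1) ≤ q k h i := by
  have h1 := (q_bounds (i := i) hk (by omega)).1
  have h2 := (q_bounds (i := i + 1) hk hi).2
  obtain ⟨N, hN⟩ : ∃ N, k - (4 * (i + 1) + 3) = N + 2 := ⟨k - (4 * (i + 1) + 3) - 2, by omega⟩
  have hN' : k - (4 * i + 3) = N + 2 + 4 := by omega
  rw [hN] at h2
  rw [hN'] at h1
  have e : ((N + 2 + 4).factorial : ℤ) = (N + 6) * (N + 5) * (N + 4) * (N + 3) * ((N + 2).factorial : ℤ) := by
    rw [show N + 2 + 4 = N + 2 + 1 + 1 + 1 + 1 by ring]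
    simp only [Nat.factorial_succ]
    push_cast
    ring
  rw [e] at h1
  have h3 : (0 : ℤ) < ((N + 2).factorial : ℤ) * 2 ^ (4 * i + 3) := by positivity
  have h4 : (2 : ℤ) ^ (4 * (i + 1) + 3) = 16 * 2 ^ (4 * i + 3) := by
    rw [show 4 * (i + 1) + 3 = (4 * i + 3) + 4 by ring, pow_add]; ring
  rw [h4] at h2
  have h5 : (360 : ℤ) ≤ (N + 6) * (N + 5) * (N + 4) * (N + 3) := by
    have hn : (0 : ℤ) ≤ N := by positivity
    have a1 : (30 : ℤ) ≤ (N + 6) * (N + 5) := by nlinarith
    have a2 : (12 : ℤ) ≤ (N + 4) * (N + 3) := by nlinarith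
    nlinarith
  have h6 := mul_le_mul_of_nonneg_right h5 h3.le
  nlinarith

/-- signs of the last row -/
def eps (_k h : ℕ) (S : Finset ℕ) (v : ℕ) : ℤ :=
  if 1 ≤ v ∧ v ≤ 2 * h then (if v % 2 = 1 then 1 else -1) * (if (v - 1) / 2 ∈ S then 1 else -1) else 1

theorem per_value {k h : ℕ} (hk : 100 * h ≤ k) (hh : 1 ≤ h) : ∃ R : ℤ, ∀ S : Finset ℕ,
    (A k (4 * h) (fun c => eps k h S c)).permanent = R - ∑ i ∈ range h, (if i ∈ S then 1 else -1) * q k h i := by
  refine ⟨pm k (4 * h) (fz k 0) + ∑ v ∈ Ico (2 * h + 1) (k + 1), pm k (4 * h) (fz k v), fun S => ?_⟩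
  rw [per_A k (4 * h) (by omega)]
  have h1 : ∀ j : Fin (k + 1), eps k h S j * pm k (4 * h) j = (fun v : ℕ => eps k h S v * pm k (4 * h) (fz k v)) (j : ℕ) := by
    intro j
    have : fz k (j : ℕ) = j := Fin.ext (fz_val j.2)
    simp only [this]
  rw [sum_congr rfl (fun j _ => h1 j), Fin.sum_univ_eq_sum_range (fun v : ℕ => eps k h S v * pm k (4 * h) (fz k v)) (k + 1),
    ← sum_range_add_sum_Ico _ (show 2 * h + 1 ≤ k + 1 by omega), sum_range_succ' _ (2 * h)]
  have h2 : ∑ v ∈ Ico (2 * h + 1) (k + 1), eps k h S v * pm k (4 * h) (fz k v) =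
      ∑ v ∈ Ico (2 * h + 1) (k + 1), pm k (4 * h) (fz k v) := by
    refine sum_congr rfl fun v hv => ?_
    rw [mem_Ico] at hv
    have : eps k h S v = 1 := by unfold eps; rw [if_neg (by omega)]
    rw [this, one_mul]
  have h3 : eps k h S 0 = 1 := by unfold eps; rw [if_neg (by omega)]
  have h4 : ∑ v ∈ range (2 * h), eps k h S (v + 1) * pm k (4 * h) (fz k (v + 1)) =
      - ∑ i ∈ range h, (if i ∈ S then 1 else -1) * q k h i := by
    have h5 : ∀ l ≤ h, ∑ v ∈ range (2 * l), eps k h S (v + 1) * pm k (4 * h) (fz k (v + 1)) =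
      - ∑ i ∈ range l, (if i ∈ S then 1 else -1) * q k h i := by
      intro l
      induction l with
      | zero => simp
      | succ l ih =>
        intro hl
        rw [show 2 * (l + 1) = 2 * l + 1 + 1 by ring, sum_range_succ, sum_range_succ, ih (by omega), sum_range_succ]
        have e1 : eps k h S (2 * l + 1) = if l ∈ S then 1 else -1 := by
          unfold eps
          rw [if_pos (by omega), if_pos (by omega), one_mul, show (2 * l + 1 - 1) / 2 = l by omega]
        have e2 : eps k h S (2 * l + 1 + 1) = - if l ∈ S then 1 else -1 := by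
          unfold eps
          rw [if_pos (by omega), if_neg (by omega), show (2 * l + 1 + 1 - 1) / 2 = l by omega]
          ring
        have e3 := pm_diff k (4 * h) (2 * l) (8 * (h - 1 - l)) (by omega) (by omega)
        rw [e1, e2]
        have e4 : (-2 : ℤ) ^ (2 * (2 * l) + 3) = - 2 ^ (4 * l + 3) := by
          rw [show 2 * (2 * l) + 3 = 4 * l + 3 by ring]
          exact Odd.neg_pow ⟨2 * l + 1, by ring⟩ 2
        rw [e4, show 2 * (2 * l) + 3 = 4 * l + 3 by ring] at e3
        unfold q
        rw [show 2 * l + 1 + 1 = 2 * l + 2 by ring]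
        linear_combination (if l ∈ S then (1 : ℤ) else -1) * e3
    exact h5 h le_rfl
  rw [h2, h3, h4]
  ring

theorem A_entries (k m : ℕ) (ε : Fin (k + 1) → ℤ) (hε : ∀ c, ε c = 1 ∨ ε c = -1) (i j : Fin (k + 1)) :
    A k m ε i j = 1 ∨ A k m ε i j = -1 := by
  unfold A
  split_ifs
  · exact hε i
  · right; rfl
  · left; rfl

theorem eps_entries (k h : ℕ) (S : Finset ℕ) (v : ℕ) : eps k h S v = 1 ∨ eps k h S v = -1 := by
  unfold eps
  split_ifs <;> norm_num

theorem main (k h : ℕ) (hk : 100 * h ≤ k) (hh : 1 ≤ h) :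
    2 ^ h ≤ Set.ncard {p : ℤ | ∃ A : Matrix (Fin (k + 1)) (Fin (k + 1)) ℤ,
        (∀ i j, A i j = 1 ∨ A i j = -1) ∧ A.permanent = p} := by
  classical
  obtain ⟨R, hR⟩ := per_value hk hh
  have hfin : Set.Finite {p : ℤ | ∃ A : Matrix (Fin (k + 1)) (Fin (k + 1)) ℤ,
        (∀ i j, A i j = 1 ∨ A i j = -1) ∧ A.permanent = p} := by
    have : Set.Finite {A : Matrix (Fin (k + 1)) (Fin (k + 1)) ℤ | ∀ i j, A i j = 1 ∨ A i j = -1} := by
      have h1 : Set.Finite (Set.pi Set.univ (fun _ : Fin (k + 1) =>
          (Set.pi Set.univ (fun _ : Fin (k + 1) => ({1, -1} : Set ℤ))))) :=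
        Set.Finite.pi fun _ => Set.Finite.pi fun _ => Set.toFinite _
      refine h1.subset ?_
      intro A hA i _ j _
      have := hA i j
      simpa using this
    refine (this.image (fun A => A.permanent)).subset ?_
    rintro p ⟨A, hA, rfl⟩
    exact ⟨A, hA, rfl⟩
  have h1 : ((range h).powerset.image (fun S => (A k (4 * h) (fun c => eps k h S c)).permanent)).card = 2 ^ h := by
    rw [card_image_of_injOn, card_powerset, card_range]
    intro S hS T hT hST
    simp only [hR] at hST
    have h2 := lacunary h (q k h) (fun i hi => q_pos hk hi) (fun i hi => q_decay hk hi)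
      (fun i => if i ∈ S then 1 else -1) (fun i => if i ∈ T then 1 else -1)
      (fun i => by split_ifs <;> simp) (fun i => by split_ifs <;> simp) (by linarith)
    ext i
    constructor
    · intro hi
      have h3 := h2 i (mem_range.1 (mem_powerset.1 hS hi))
      by_contra hc
      simp [hi, hc] at h3
    · intro hi
      have h3 := h2 i (mem_range.1 (mem_powerset.1 hT hi))
      by_contra hc
      simp [hi, hc] at h3
  rw [← h1, ← Set.ncard_coe_finset]
  refine Set.ncard_le_ncard ?_ hfin
  intro p hp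
  rw [coe_image] at hp
  obtain ⟨S, -, rfl⟩ := hp
  exact ⟨_, A_entries _ _ _ (fun c => eps_entries _ _ _ _), rfl⟩

end Pool.Agent.R397.PP
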