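import Pool.Agent.R537.VC.Defs

/-!
# Polynomial time computability of the relativized sentence
-/

set_option autoImplicit false

namespace Pool.Agent.NPC.R397VC

open Pool.Agent.NPC Pool.Agent.NPC.ER Pool.Agent.NPC.H670R2 Pool.Agent.NPC.R537VC

variable {α : Type} [TEnc α]

theorem orL_eq (l : List Fm) : orL l = disj l := by
  induction l with
  | nil => rfl
  | cons a l ih =>
    show Fm.or a (orL l) = Fm.or a (disj l)
    rw [ih]

theorem poly_orL {l : α → List Fm} (hl : Poly l) : Poly (fun a => orL (l a)) :=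
  (poly_disj hl).congr fun a => (orL_eq _).symm

theorem poly_is0 {i : α → ℕ} (hi : Poly i) : Poly (fun a => is0 (i a)) :=
  poly_eq (poly_tvar hi) (Poly.const _)

theorem poly_is1 {i : α → ℕ} (hi : Poly i) : Poly (fun a => is1 (i a)) :=
  poly_eq (poly_tvar hi) (Poly.const _)

theorem t_RP : S_RP := by
  have h1 : Poly (fun p : Sen => p.1) := Poly.fst Poly.id
  have h2 : Poly (fun p : Sen => p.2.1) := Poly.fst (Poly.snd Poly.id)
  have h3 : Poly (fun p : Sen => p.2.2) := Poly.snd (Poly.snd Poly.id)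
  have hf : Poly (fun p : Sen => p.2.1.filter fun u => decide (u ∉ p.1)) := by
    refine Poly.filter (p := fun (p : Sen) (u : ℕ) => decide (u ∉ p.1)) h2 ?_
    have hm : Poly (fun x : Sen × ℕ => decide (x.2 ∈ x.1.1)) :=
      Poly.decide_mem (Poly.snd Poly.id) (Poly.fst (Poly.fst Poly.id))
    exact (Poly.not hm).congr fun x => by simp
  have hmap : Poly (fun p : Sen => (p.2.1.filter fun u => decide (u ∉ p.1)).map fun u =>
      Fm.not (Fm.or (is0 u) (is1 u))) :=
    Poly.map (F := fun (_ : Sen) (u : ℕ) => Fm.not (Fm.or (is0 u) (is1 u))) hf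
      (poly_not (poly_or (poly_is0 (Poly.snd Poly.id)) (poly_is1 (Poly.snd Poly.id))))
  exact Poly.pair h1 (Poly.pair h2 (poly_or (poly_orL hmap) h3))

end Pool.Agent.NPC.R397VC
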